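import Mathlib
import Pool.Agent.H73.KQ1.Q1

/-!
# The Kakeya inequality for tubes of `ℝⁿ`, `n ≥ 2`
-/

set_option autoImplicit false

open MeasureTheory ENNReal
open scoped RealInnerProductSpace

namespace Pool.Agent.H73.RN.Candidate2

/-- The tube of length `1`, radius `δ`, centre `c` and axis direction `e` in `ℝᵈ⁺¹`. -/
def tube {d : ℕ} (δ : ℝ) (c e : EuclideanSpace ℝ (Fin (d + 1))) :
    Set (EuclideanSpace ℝ (Fin (d + 1))) :=
  {x | |⟪x - c, e⟫| ≤ 1 / 2 ∧ ‖(x - c) - ⟪x - c, e⟫ • e‖ ≤ δ}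

/-- For each dimension `n = d + 1 ≥ 2` and each exponent `n / (n - 1) < q ≤ ∞` there is a constant
`C` such that for all `0 < δ < 1` and every finite family of `δ`-tubes of `ℝⁿ` with `δ`-separated
orientations the inequality of Q1 holds. For `q = ∞` the exponents of `δ` and `N` are `0` and
`1`. -/
theorem result (hMB : ∀ m : ℕ, 1 ≤ m → Pool.KFIN.MB m (1 + (m : ℝ))) (d : ℕ) (hd : 1 ≤ d)
    (q : ENNReal) (hq : ENNReal.ofReal ((d + 1) / d) < q) :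
    ∃ C : ℝ, ∀ δ : ℝ, 0 < δ → δ < 1 →
      ∀ (N : ℕ) (c e : Fin N → EuclideanSpace ℝ (Fin (d + 1))),
        (∀ i, ‖e i‖ = 1) → (∀ i j, i ≠ j → δ ≤ ‖e i - e j‖) →
        eLpNorm (fun x => ∑ i, (tube δ (c i) (e i)).indicator (fun _ => (1 : ℝ)) x) q volume ≤
        ENNReal.ofReal (C * (δ ^ (d / q.toReal) * (N : ℝ) ^ (1 - 1 / (d * q.toReal)))) := by
  have hd0 : (0 : ℝ) < d := by exact_mod_cast hd
  have hq' : ENNReal.ofReal (1 + 1 / (d : ℝ)) < q := by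
    have e1 : ((d : ℝ) + 1) / d = 1 + 1 / d := by field_simp
    rwa [e1] at hq
  obtain ⟨C, hC⟩ := Pool.KFIN.q1_of_MB hd (hMB d hd) hq'
  refine ⟨C, ?_⟩
  intro δ hδ hδ1 N c e he1 he2
  have h1 := hC δ hδ hδ1 N c e he1 he2
  rw [mul_comm q.toReal (d : ℝ)] at h1
  exact h1

end Pool.Agent.H73.RN.Candidate2
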