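import Mathlib
import Pool.Agent.H73.KFIN.FinalN
import Pool.Agent.H73.KFIN.Restr

/-!
# The Kakeya problem in `ℝ⁵`
-/

set_option autoImplicit false

open MeasureTheory ENNReal
open scoped RealInnerProductSpace

namespace Pool.Agent.H73.RN.Candidate.KakeyaR5

/-- The tube of length `1`, radius `δ`, centre `c` and axis direction `e` in `ℝ⁵`. -/
def tube (δ : ℝ) (c e : EuclideanSpace ℝ (Fin 5)) : Set (EuclideanSpace ℝ (Fin 5)) :=
  {x | |⟪x - c, e⟫| ≤ 1 / 2 ∧ ‖(x - c) - ⟪x - c, e⟫ • e‖ ≤ δ}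

/-- The number of tubes which contain the point `x`. -/
noncomputable def mult {N : ℕ} (δ : ℝ) (c e : Fin N → EuclideanSpace ℝ (Fin 5))
    (x : EuclideanSpace ℝ (Fin 5)) : ℝ :=
  ∑ i, (tube δ (c i) (e i)).indicator (fun _ => (1 : ℝ)) x

theorem result (hKP : Pool.KA.KP 4) :
    (∀ ε q₀ : ℝ, 0 < ε → ε < 1 → 5 / 4 < q₀ →
      ∃ θ P C : ℝ, 0 < θ ∧ 0 ≤ P ∧ 0 < C ∧ ∀ δ : ℝ, 0 < δ → δ < 1 →
        ∀ (N : ℕ) (c e : Fin N → EuclideanSpace ℝ (Fin 5)),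
        (∀ i, ‖e i‖ = 1) → (∀ i j, i ≠ j → δ ≤ ‖e i - e j‖) →
        (∃ G : Set (EuclideanSpace ℝ (Fin 5)), MeasurableSet G ∧
          ∑ i, volume (tube δ (c i) (e i) \ G) ≤
            ENNReal.ofReal ((N : ℝ) ^ (-θ)) * ∑ i, volume (tube δ (c i) (e i)) ∧
          (∀ x ∈ G, mult δ c e x ≤ C * (N : ℝ) ^ ε) ∧
          (∀ q : ℝ, q₀ ≤ q →
            eLpNorm (G.indicator (mult δ c e)) (ENNReal.ofReal q) volume ≤
              ENNReal.ofReal (C * (δ ^ (4 / q) * (N : ℝ) ^ (1 - 1 / (4 * q)))))) ∧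
        ENNReal.ofReal (C⁻¹ * ((N : ℝ) ^ (1 - ε) * δ ^ 4)) ≤
          volume (⋃ i, tube δ (c i) (e i)) ∧
        (∀ lam : ℝ, 0 < lam → lam ≤ 1 → ∀ X : Set (EuclideanSpace ℝ (Fin 5)),
          MeasurableSet X →
          (∀ i, ENNReal.ofReal lam * volume (tube δ (c i) (e i)) ≤
            volume (X ∩ tube δ (c i) (e i))) →
          ENNReal.ofReal (C⁻¹ * lam ^ P * ((N : ℝ) ^ (1 - ε) * δ ^ 4)) ≤ volume X)) ∧
    (∀ K : Set (EuclideanSpace ℝ (Fin 5)),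
      (∀ e : EuclideanSpace ℝ (Fin 5), ‖e‖ = 1 →
        ∃ x : EuclideanSpace ℝ (Fin 5), ∀ t : ℝ, 0 ≤ t → t ≤ 1 → x + t • e ∈ K) →
      dimH K = 5) := by
  refine ⟨?_, ?_⟩
  · intro ε q₀ hε hε1 hq₀
    have hq₀' : 1 + 1 / ((4 : ℕ) : ℝ) < q₀ := by
      norm_num
      linarith
    obtain ⟨θ, P, C, hθ, hP, hC, h⟩ := Pool.KFIN.tubesN_of_KP (d := 4) (by norm_num) hKP hε hε1
      hq₀'
    refine ⟨θ, P, C, hθ, hP, hC, ?_⟩
    intro δ hδ hδ1 N c e he hsep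
    obtain ⟨⟨G, hG, h1, h2, h3⟩, h4, h5⟩ := h δ hδ hδ1 N c e he hsep
    have hm : (fun x => mult δ c e x) = Pool.STK.mlt δ c e := by
      funext x
      rw [mult, Pool.STK.mlt]
      rfl
    refine ⟨⟨G, hG, h1, ?_, ?_⟩, h4, h5⟩
    · intro x hx
      have := h2 x hx
      rw [← hm] at this
      exact this
    · intro q hq
      have h6 := h3 q hq
      rw [← hm] at h6
      refine le_trans h6 (le_of_eq ?_)
      congr 1
      push_cast
      ring_nf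
  · intro K hK
    refine le_antisymm ?_ ?_
    · have h1 : dimH K ≤ dimH (Set.univ : Set (EuclideanSpace ℝ (Fin 5))) :=
        dimH_mono (Set.subset_univ K)
      rw [Real.dimH_univ_eq_finrank, finrank_euclideanSpace_fin] at h1
      exact_mod_cast h1
    · have h1 := Pool.Agent.H55.HDim.le_dimH_of_dens (d := 4) (b := 1) (by norm_num)
        (Pool.KFIN.dens_of_KP hKP) K hK
      refine le_trans (le_of_eq ?_) h1
      norm_num

end Pool.Agent.H73.RN.Candidate.KakeyaR5
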