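import Mathlib
import Pool.Agent.H73.KFIN.FinalN
import Pool.Agent.H73.KFIN.Restr

/-!
# The Kakeya problem in all dimensions
-/

set_option autoImplicit false

open MeasureTheory ENNReal
open scoped RealInnerProductSpace

namespace Pool.Agent.H73.RN.Candidate

/-- The tube of length `1`, radius `δ`, centre `c` and axis direction `e` in `ℝᵈ⁺¹`. -/
def tube {d : ℕ} (δ : ℝ) (c e : EuclideanSpace ℝ (Fin (d + 1))) :
    Set (EuclideanSpace ℝ (Fin (d + 1))) :=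
  {x | |⟪x - c, e⟫| ≤ 1 / 2 ∧ ‖(x - c) - ⟪x - c, e⟫ • e‖ ≤ δ}

/-- The number of tubes which contain the point `x`. -/
noncomputable def mult {d N : ℕ} (δ : ℝ) (c e : Fin N → EuclideanSpace ℝ (Fin (d + 1)))
    (x : EuclideanSpace ℝ (Fin (d + 1))) : ℝ :=
  ∑ i, (tube δ (c i) (e i)).indicator (fun _ => (1 : ℝ)) x

theorem result (hKP : ∀ m : ℕ, Pool.KA.KP m) (d : ℕ) (hd : 1 ≤ d) :
    (∀ ε q₀ : ℝ, 0 < ε → ε < 1 → ((d : ℝ) + 1) / d < q₀ →
      ∃ θ P C : ℝ, 0 < θ ∧ 0 ≤ P ∧ 0 < C ∧ ∀ δ : ℝ, 0 < δ → δ < 1 →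
        ∀ (N : ℕ) (c e : Fin N → EuclideanSpace ℝ (Fin (d + 1))),
        (∀ i, ‖e i‖ = 1) → (∀ i j, i ≠ j → δ ≤ ‖e i - e j‖) →
        (∃ G : Set (EuclideanSpace ℝ (Fin (d + 1))), MeasurableSet G ∧
          ∑ i, volume (tube δ (c i) (e i) \ G) ≤
            ENNReal.ofReal ((N : ℝ) ^ (-θ)) * ∑ i, volume (tube δ (c i) (e i)) ∧
          (∀ x ∈ G, mult δ c e x ≤ C * (N : ℝ) ^ ε) ∧
          (∀ q : ℝ, q₀ ≤ q →
            eLpNorm (G.indicator (mult δ c e)) (ENNReal.ofReal q) volume ≤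
              ENNReal.ofReal (C * (δ ^ (d / q) * (N : ℝ) ^ (1 - 1 / (d * q)))))) ∧
        ENNReal.ofReal (C⁻¹ * ((N : ℝ) ^ (1 - ε) * δ ^ d)) ≤
          volume (⋃ i, tube δ (c i) (e i)) ∧
        (∀ lam : ℝ, 0 < lam → lam ≤ 1 → ∀ X : Set (EuclideanSpace ℝ (Fin (d + 1))),
          MeasurableSet X →
          (∀ i, ENNReal.ofReal lam * volume (tube δ (c i) (e i)) ≤
            volume (X ∩ tube δ (c i) (e i))) →
          ENNReal.ofReal (C⁻¹ * lam ^ P * ((N : ℝ) ^ (1 - ε) * δ ^ d)) ≤ volume X)) ∧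
    (∀ K : Set (EuclideanSpace ℝ (Fin (d + 1))),
      (∀ e : EuclideanSpace ℝ (Fin (d + 1)), ‖e‖ = 1 →
        ∃ x : EuclideanSpace ℝ (Fin (d + 1)), ∀ t : ℝ, 0 ≤ t → t ≤ 1 → x + t • e ∈ K) →
      dimH K = d + 1) := by
  have hd0 : (0 : ℝ) < d := by exact_mod_cast hd
  refine ⟨?_, ?_⟩
  · intro ε q₀ hε hε1 hq₀
    have hq₀' : 1 + 1 / (d : ℝ) < q₀ := by
      have e1 : ((d : ℝ) + 1) / d = 1 + 1 / d := by field_simp
      rwa [e1] at hq₀
    obtain ⟨θ, P, C, hθ, hP, hC, h⟩ := Pool.KFIN.tubesN_of_KP (d := d) hd (hKP d) hε hε1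
      hq₀'
    refine ⟨θ, P, C, hθ, hP, hC, ?_⟩
    intro δ hδ hδ1 N c e he hsep
    obtain ⟨⟨G, hG, h1, h2, h3⟩, h4, h5⟩ := h δ hδ hδ1 N c e he hsep
    have hm : (fun x => mult δ c e x) = Pool.STK.mlt δ c e := by
      funext x
      rw [mult, Pool.STK.mlt]
      rfl
    refine ⟨⟨G, hG, h1, ?_, ?_⟩, h4, h5⟩
    · intro x hx
      have := h2 x hx
      rw [← hm] at this
      exact this
    · intro q hq
      have h6 := h3 q hq
      rw [← hm] at h6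
      refine le_trans h6 (le_of_eq ?_)
      rw [mul_comm q (d : ℝ)]
  · intro K hK
    refine le_antisymm ?_ ?_
    · have h1 : dimH K ≤ dimH (Set.univ : Set (EuclideanSpace ℝ (Fin (d + 1)))) :=
        dimH_mono (Set.subset_univ K)
      rw [Real.dimH_univ_eq_finrank, finrank_euclideanSpace_fin] at h1
      exact_mod_cast h1
    · have h1 := Pool.Agent.H55.HDim.le_dimH_of_dens (d := d) (b := 1) (by norm_num)
        (Pool.KFIN.dens_of_KP (hKP d)) K hK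
      refine le_trans (le_of_eq ?_) h1
      rw [one_mul, ENNReal.ofReal_add hd0.le zero_le_one, ENNReal.ofReal_one,
        ENNReal.ofReal_natCast]

end Pool.Agent.H73.RN.Candidate
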