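import Mathlib
import Pool.Agent.H94.GP.SForm

/-!
# The Kakeya problem for families of tubes with few directions in every ball
-/

set_option autoImplicit false

open MeasureTheory ENNReal
open scoped RealInnerProductSpace

namespace Pool.Agent.H73.RN.Candidate.ProjR5

/-- The tube of length `1`, radius `δ`, centre `c` and axis direction `e` in the Euclidean space of
dimension `n = d + 1`. -/
def tube {d : ℕ} (δ : ℝ) (c e : EuclideanSpace ℝ (Fin (d + 1))) :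
    Set (EuclideanSpace ℝ (Fin (d + 1))) :=
  {x | |⟪x - c, e⟫| ≤ 1 / 2 ∧ ‖(x - c) - ⟪x - c, e⟫ • e‖ ≤ δ}

/-- The number of tubes which contain the point `x`. -/
noncomputable def mult {d N : ℕ} (δ : ℝ) (c e : Fin N → EuclideanSpace ℝ (Fin (d + 1)))
    (x : EuclideanSpace ℝ (Fin (d + 1))) : ℝ :=
  ∑ i, (tube δ (c i) (e i)).indicator (fun _ => (1 : ℝ)) x

/-- At most `M (r / δ) ^ k` directions of the family are at distance at most `r` from one of them,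
for all `r ≥ δ`. -/
def Spread {d N : ℕ} (k : ℕ) (δ M : ℝ) (e : Fin N → EuclideanSpace ℝ (Fin (d + 1))) : Prop :=
  ∀ i, ∀ r : ℝ, δ ≤ r → (({j | ‖e j - e i‖ ≤ r} : Set (Fin N)).ncard : ℝ) ≤ M * (r / δ) ^ k

theorem result (hKP3 : Pool.KA.KP 3) (hKP4 : Pool.KA.KP 4) (d k : ℕ) (hd : 3 ≤ d)
    (hk : k = min d 4) :
    (∀ A σ ε q₀ : ℝ, 0 ≤ σ → σ ≤ 1 - (k : ℝ) / (d : ℝ) → 0 < ε → ε < 1 - σ →
      1 + 1 / ((d : ℝ) * (1 - σ)) < q₀ →
      ∃ θ P C : ℝ, 0 < θ ∧ 0 ≤ P ∧ 0 < C ∧ ∀ δ : ℝ, 0 < δ → δ < 1 →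
        ∀ (N : ℕ) (c e : Fin N → EuclideanSpace ℝ (Fin (d + 1))),
        (∀ i, ‖e i‖ = 1) → (∀ i j, i ≠ j → δ ≤ ‖e i - e j‖) →
        (σ = 1 - (k : ℝ) / (d : ℝ) ∨ Spread k δ (A * (N : ℝ) ^ σ) e) →
        (∃ G : Set (EuclideanSpace ℝ (Fin (d + 1))), MeasurableSet G ∧
          ∑ i, volume (tube δ (c i) (e i) \ G) ≤
            ENNReal.ofReal ((N : ℝ) ^ (-θ)) * ∑ i, volume (tube δ (c i) (e i)) ∧
          (∀ x ∈ G, mult δ c e x ≤ C * (N : ℝ) ^ (σ + ε)) ∧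
          (∀ q : ℝ, q₀ ≤ q →
            eLpNorm (G.indicator (mult δ c e)) (ENNReal.ofReal q) volume ≤
              ENNReal.ofReal (C * (δ ^ ((d : ℝ) / q) * (N : ℝ) ^ (1 - 1 / (q * d)))))) ∧
        ENNReal.ofReal (C⁻¹ * ((N : ℝ) ^ (1 - σ - ε) * δ ^ d)) ≤
          volume (⋃ i, tube δ (c i) (e i)) ∧
        (∀ lam : ℝ, 0 < lam → lam ≤ 1 → ∀ X : Set (EuclideanSpace ℝ (Fin (d + 1))),
          MeasurableSet X →
          (∀ i, ENNReal.ofReal lam * volume (tube δ (c i) (e i)) ≤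
            volume (X ∩ tube δ (c i) (e i))) →
          ENNReal.ofReal (C⁻¹ * lam ^ P * ((N : ℝ) ^ (1 - σ - ε) * δ ^ d)) ≤ volume X)) ∧
    (∀ Ω K : Set (EuclideanSpace ℝ (Fin (d + 1))), Ω.Nonempty → (∀ e ∈ Ω, ‖e‖ = 1) →
      (∀ e ∈ Ω, ∃ x : EuclideanSpace ℝ (Fin (d + 1)), ∀ t : ℝ, 0 ≤ t → t ≤ 1 → x + t • e ∈ K) →
      min (dimH Ω) k + 1 ≤ dimH K) ∧
    (∀ K : Set (EuclideanSpace ℝ (Fin (d + 1))),
      (∀ e : EuclideanSpace ℝ (Fin (d + 1)), ‖e‖ = 1 →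
        ∃ x : EuclideanSpace ℝ (Fin (d + 1)), ∀ t : ℝ, 0 ≤ t → t ≤ 1 → x + t • e ∈ K) →
      (k : ℝ≥0∞) + 1 ≤ dimH K ∧ (d ≤ 4 → dimH K = d + 1)) := by
  have hd0 : 0 < d := by omega
  have hkd : k ≤ d := by rw [hk]; exact min_le_left _ _
  have hk0 : 0 < k := by omega
  have hKP : Pool.KA.KP k := by
    rcases Nat.lt_or_ge d 4 with h | h
    · have e1 : k = 3 := by omega
      rw [e1]; exact hKP3
    · have e1 : k = 4 := by omega
      rw [e1]; exact hKP4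
  have hdens : Pool.GP.DensM d k := Pool.GP.densM_of_KP hd0 hKP
  refine ⟨?_, ?_, ?_⟩
  · intro A σ ε q₀ hσ hσ1 hε hε1 hq₀
    obtain ⟨θ, P, C, hθ, hP, hC, h⟩ := Pool.GP.tubesS (k := k) (by omega) hk0 hkd hdens A
      hε hσ hσ1 hε1 hq₀
    refine ⟨θ, P, C, hθ, hP, hC, ?_⟩
    intro δ hδ hδ1 N c e he hsep hM
    refine h δ hδ hδ1 N c e he hsep ?_
    rcases hM with hM | hM
    · left
      exact hM
    · right
      intro i _ r hr
      refine le_trans (le_of_eq ?_) (hM i r hr)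
      congr 2
      ext j
      simp
  · intro Ω K hne hΩ hK
    exact Pool.GP.le_dimH_of_densM hdens Ω hΩ hne K hK
  · intro K hK
    have h1 : (k : ℝ≥0∞) + 1 ≤ dimH K := by
      have h2 := Pool.Agent.H55.HDim.le_dimH_of_dens (d := d) (b := (k : ℝ) / d)
        (by positivity) (Pool.GP.dens_of_densM hd0 hkd hk0 hdens) K hK
      refine le_trans (le_of_eq ?_) h2
      have hd' : (0 : ℝ) < d := by exact_mod_cast hd0
      rw [div_mul_cancel₀ _ hd'.ne', ENNReal.ofReal_add (Nat.cast_nonneg k) zero_le_one,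
        ENNReal.ofReal_one, ENNReal.ofReal_natCast]
    refine ⟨h1, fun hd4 => le_antisymm ?_ ?_⟩
    · have h1 : dimH K ≤ dimH (Set.univ : Set (EuclideanSpace ℝ (Fin (d + 1)))) :=
        dimH_mono (Set.subset_univ K)
      rw [Real.dimH_univ_eq_finrank, finrank_euclideanSpace_fin] at h1
      exact_mod_cast h1
    · have e1 : (k : ℝ≥0∞) = d := by
        have : k = d := by omega
        rw [this]
      rw [← e1]
      exact h1

end Pool.Agent.H73.RN.Candidate.ProjR5
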